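import Mathlib

/-!
Every isomorphism class of block sets invariant under the translation of `ZMod n` contains at most
`n` such sets.
-/

set_option autoImplicit false

namespace Pool.Agent.N327.Cyc

open Finset

variable {n : ℕ} [NeZero n]

/-- isomorphism of block sets -/
def Iso (B C : Finset (Finset (ZMod n))) : Prop :=
  ∃ σ : Equiv.Perm (ZMod n), ∀ b : Finset (ZMod n), b ∈ B ↔ b.map σ.toEmbedding ∈ C

omit [NeZero n] in
theorem map_map_perm (σ τ : Equiv.Perm (ZMod n)) (b : Finset (ZMod n)) :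
    (b.map σ.toEmbedding).map τ.toEmbedding = b.map (τ * σ).toEmbedding := by
  rw [Finset.map_map]
  rfl

omit [NeZero n] in
theorem map_one_perm (b : Finset (ZMod n)) : b.map (1 : Equiv.Perm (ZMod n)).toEmbedding = b := by
  ext x
  simp only [mem_map, Equiv.coe_toEmbedding, Equiv.Perm.coe_one, id_eq, exists_eq_right]

omit [NeZero n] in
theorem Iso.refl (B : Finset (Finset (ZMod n))) : Iso B B :=
  ⟨1, fun b => by rw [map_one_perm]⟩

omit [NeZero n] in
theorem map_inv_map (σ : Equiv.Perm (ZMod n)) (b : Finset (ZMod n)) :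
    (b.map (σ⁻¹).toEmbedding).map σ.toEmbedding = b := by
  rw [map_map_perm, mul_inv_cancel, map_one_perm]

omit [NeZero n] in
theorem map_map_inv (σ : Equiv.Perm (ZMod n)) (b : Finset (ZMod n)) :
    (b.map σ.toEmbedding).map (σ⁻¹).toEmbedding = b := by
  rw [map_map_perm, inv_mul_cancel, map_one_perm]

omit [NeZero n] in
theorem Iso.symm {B C : Finset (Finset (ZMod n))} (h : Iso B C) : Iso C B := by
  obtain ⟨σ, hσ⟩ := h
  refine ⟨σ⁻¹, fun b => ?_⟩
  rw [hσ, map_inv_map]

omit [NeZero n] in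
theorem Iso.trans {B C D : Finset (Finset (ZMod n))} (h : Iso B C) (h' : Iso C D) : Iso B D := by
  obtain ⟨σ, hσ⟩ := h
  obtain ⟨τ, hτ⟩ := h'
  refine ⟨τ * σ, fun b => ?_⟩
  rw [hσ, hτ, map_map_perm]

/-- the automorphisms -/
def auts (B : Finset (Finset (ZMod n))) : Set (Equiv.Perm (ZMod n)) :=
  {σ | ∀ b : Finset (ZMod n), b ∈ B ↔ b.map σ.toEmbedding ∈ B}

/-- the translation -/
def trans (n : ℕ) : Equiv.Perm (ZMod n) := Equiv.addRight 1

theorem trans_pow (n : ℕ) (j : ℕ) (x : ZMod n) : (trans n ^ j) x = x + j := by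
  induction j with
  | zero => simp
  | succ j ih => rw [pow_succ', Equiv.Perm.mul_apply, ih]; simp [trans]; ring

/-- a permutation is determined by the conjugate of the translation and the image of `0` -/
theorem perm_eq {σ τ : Equiv.Perm (ZMod n)} (h : σ⁻¹ * trans n * σ = τ⁻¹ * trans n * τ)
    (h0 : σ 0 = τ 0) : σ = τ := by
  have key : ∀ (ρ : Equiv.Perm (ZMod n)) (j : ℕ), (ρ⁻¹ * trans n * ρ) ^ j = ρ⁻¹ * trans n ^ j * ρ := by
    intro ρ j
    have := conj_pow (i := j) (a := ρ⁻¹) (b := trans n)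
    simpa using this
  have h1 : ∀ (ρ : Equiv.Perm (ZMod n)) (j : ℕ),
      ρ (((ρ⁻¹ * trans n * ρ) ^ j) 0) = ρ 0 + j := by
    intro ρ j
    rw [key]
    rw [Equiv.Perm.mul_apply, Equiv.Perm.mul_apply, trans_pow]
    exact ρ.apply_symm_apply _
  apply Equiv.ext
  intro x
  obtain ⟨j, hj⟩ : ∃ j : ℕ, (j : ZMod n) = σ x - σ 0 := ⟨(σ x - σ 0).val, by simp⟩
  have h2 := h1 σ j
  have h3 := h1 τ j
  rw [hj] at h2 h3
  have h4 : ((σ⁻¹ * trans n * σ) ^ j) 0 = x := σ.injective (by rw [h2]; ring)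
  rw [← h, h4, ← h0] at h3
  rw [h3]; ring

open Classical in
/-- The number of translation invariant block sets isomorphic to a given one is at most `n`. -/
theorem class_card (𝓕 : Finset (Finset (Finset (ZMod n))))
    (hT : ∀ B ∈ 𝓕, trans n ∈ auts B) (B : Finset (Finset (ZMod n))) :
    (𝓕.filter fun C => Iso B C).card ≤ n := by
  classical
  set 𝓒 := 𝓕.filter fun C => Iso B C with h𝓒
  have hch : ∀ C : 𝓒, ∃ σ : Equiv.Perm (ZMod n), ∀ b : Finset (ZMod n),
      b ∈ B ↔ b.map σ.toEmbedding ∈ C.1 := fun C => (mem_filter.1 C.2).2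
  choose σ hσ using hch
  -- the conjugates of the translation are automorphisms of `B`
  have hconj : ∀ (C : 𝓒) (α : auts B), (σ C * α.1)⁻¹ * trans n * (σ C * α.1) ∈ auts B := by
    intro C α b
    have h1 : b ∈ B ↔ b.map (σ C * α.1).toEmbedding ∈ C.1 := by
      rw [α.2 b, hσ C, map_map_perm]
    have h2 := hT C.1 (mem_filter.1 C.2).1 (b.map (σ C * α.1).toEmbedding)
    rw [h1, h2, map_map_perm]
    have h3 : ∀ c : Finset (ZMod n), c.map ((σ C * α.1)⁻¹).toEmbedding ∈ B ↔ c ∈ C.1 := by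
      intro c
      have : c.map ((σ C * α.1)⁻¹).toEmbedding ∈ B ↔
          (c.map ((σ C * α.1)⁻¹).toEmbedding).map (σ C * α.1).toEmbedding ∈ C.1 := by
        rw [α.2, hσ C, map_map_perm, ← map_map_perm]
      rw [this, map_inv_map]
    rw [← h3, map_map_perm, mul_assoc]
  let F : 𝓒 × auts B → auts B × ZMod n := fun p =>
    (⟨(σ p.1 * p.2.1)⁻¹ * trans n * (σ p.1 * p.2.1), hconj p.1 p.2⟩, (σ p.1 * p.2.1) 0)
  have hF : Function.Injective F := by
    rintro ⟨C, α⟩ ⟨D, β⟩ h
    simp only [F, Prod.mk.injEq, Subtype.mk.injEq] at h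
    have h1 := perm_eq h.1 h.2
    have h2 : C = D := by
      apply Subtype.ext
      ext c
      have e : ∀ (C : 𝓒) (α : auts B) (c : Finset (ZMod n)),
          c ∈ C.1 ↔ c.map ((σ C * α.1)⁻¹).toEmbedding ∈ B := by
        intro C α c
        have : c.map ((σ C * α.1)⁻¹).toEmbedding ∈ B ↔
            (c.map ((σ C * α.1)⁻¹).toEmbedding).map (σ C * α.1).toEmbedding ∈ C.1 := by
          rw [α.2, hσ C, map_map_perm, ← map_map_perm]
        rw [this, map_inv_map]
      rw [e C α, e D β, h1]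
    subst h2
    have h3 : α = β := Subtype.ext (mul_left_cancel h1)
    rw [h3]
  have hfin : Finite (auts B) := inferInstance
  have _ : Fintype (auts B) := Fintype.ofFinite _
  have hcard := Fintype.card_le_of_injective F hF
  rw [Fintype.card_prod, Fintype.card_prod, ZMod.card, Fintype.card_coe, mul_comm] at hcard
  have hpos : 0 < Fintype.card (auts B) := by
    apply Fintype.card_pos_iff.2
    refine ⟨⟨1, fun b => ?_⟩⟩
    rw [map_one_perm]
  exact Nat.le_of_mul_le_mul_left hcard hpos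

/-- A family of more than `n * (M - 1)` translation invariant block sets contains `M` pairwise
nonisomorphic ones. -/
theorem exists_nonisomorphic (𝓕 : Finset (Finset (Finset (ZMod n))))
    (hT : ∀ B ∈ 𝓕, trans n ∈ auts B) (M : ℕ) (hM : n * M ≤ 𝓕.card) :
    ∃ B : Fin M → Finset (Finset (ZMod n)), (∀ i, B i ∈ 𝓕) ∧ ∀ i j, i ≠ j → ¬ Iso (B i) (B j) := by
  classical
  let S : Setoid (Finset (Finset (ZMod n))) :=
    ⟨Iso, ⟨Iso.refl, fun h => h.symm, fun h h' => h.trans h'⟩⟩
  let q : Finset (Finset (ZMod n)) → Quotient S := Quotient.mk S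
  have h1 : 𝓕.card ≤ n * (𝓕.image q).card := by
    apply Finset.card_le_mul_card_image
    intro a ha
    obtain ⟨B, hB, rfl⟩ := mem_image.1 ha
    refine le_trans (le_of_eq ?_) (class_card 𝓕 hT B)
    congr 1
    apply filter_congr
    intro C hC
    constructor
    · intro h; exact (Quotient.exact h).symm
    · intro h; exact Quotient.sound h.symm
  have hn : 0 < n := Nat.pos_of_ne_zero (NeZero.ne n)
  have h2 : M ≤ (𝓕.image q).card := Nat.le_of_mul_le_mul_left (hM.trans h1) hn
  obtain ⟨t, ht, htc⟩ := exists_subset_card_eq h2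
  let e : Fin M ≃ t := (finCongr htc.symm).trans t.equivFin.symm
  have hch : ∀ i : Fin M, ∃ B ∈ 𝓕, q B = (e i).1 := fun i => mem_image.1 (ht (e i).2)
  choose B hB hq using hch
  refine ⟨B, hB, fun i j hij hiso => hij ?_⟩
  apply e.injective
  apply Subtype.ext
  rw [← hq i, ← hq j]
  exact Quotient.sound hiso

end Pool.Agent.N327.Cyc
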