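import Pool.Agent.N327.Cyc.STS

set_option autoImplicit false

namespace Pool.Agent.N327.Cyc

open Finset

variable {n : ℕ} [NeZero n]

/-- the involution on the index set determined by orientations `ε` -/
def tau (ε : Fin (n / 6) → Bool) (i : Fin (n / 6) × Fin 3 × Bool) : Fin (n / 6) × Fin 3 × Bool :=
  if i.2.2 = ε i.1 then (i.1, i.2.1 + 2, !i.2.2) else (i.1, i.2.1 + 1, !i.2.2)

theorem tau_tau (ε : Fin (n / 6) → Bool) (i : Fin (n / 6) × Fin 3 × Bool) :
    tau ε (tau ε i) = i := by
  obtain ⟨r, j, s⟩ := i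
  unfold tau
  cases h : ε r <;> cases s <;> simp [h] <;> fin_cases j <;> rfl

/-- the function of the system -/
noncomputable def fn (Y : ℕ → ℕ) (ε : Fin (n / 6) → Bool) : ZMod n → ZMod n :=
  Function.extend (Phi Y) (fun i => Phi Y (tau ε i)) (fun d => -d)

theorem Phi_neg (Y : ℕ → ℕ) (r : Fin (n / 6)) (j : Fin 3) (s : Bool) :
    Phi (n := n) Y (r, j, !s) = - Phi Y (r, j, s) := by
  unfold Phi sval
  cases s <;> simp

theorem Phi_sum (Y : ℕ → ℕ) (r : Fin (n / 6)) (j : Fin 3) (s : Bool) :
    Phi (n := n) Y (r, j, s) + Phi Y (r, j + 1, s) + Phi Y (r, j + 2, s) = 0 := by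
  have h := congrArg (fun z : ℤ => (z : ZMod n)) (cval_sum Y (r + 1) j)
  simp only [Int.cast_add, Int.cast_zero] at h
  unfold Phi sval
  cases s
  · simp only [Bool.false_eq_true, if_false, Int.cast_neg]
    linear_combination -h
  · simpa using h

theorem fn_valid {Y : ℕ → ℕ} (hY : Heffter n Y) (h6 : n % 6 = 1 ∨ n % 6 = 3)
    (ε : Fin (n / 6) → Bool) : Valid (fn Y ε) := by
  have hodd : n % 2 = 1 := by omega
  have hinj := Phi_injective hY hodd
  have hin : ∀ i, fn Y ε (Phi Y i) = Phi Y (tau ε i) := fun i => by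
    unfold fn
    rw [hinj.extend_apply]
  have hout : ∀ d, (¬ ∃ i, Phi (n := n) Y i = d) → fn Y ε d = -d := fun d hd => by
    unfold fn
    rw [Function.extend_apply' _ _ _ hd]
  have hnegout : ∀ d, (¬ ∃ i, Phi (n := n) Y i = d) → ¬ ∃ i, Phi (n := n) Y i = -d := by
    rintro d hd ⟨⟨r, j, s⟩, hi⟩
    exact hd ⟨(r, j, !s), by rw [Phi_neg, hi, neg_neg]⟩
  have h0 : ¬ ∃ i, Phi (n := n) Y i = 0 := by
    rintro ⟨i, hi⟩
    exact three_Phi hY i (by rw [hi, mul_zero])
  constructor
  · rw [hout 0 h0, neg_zero]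
  · intro d
    by_cases hd : ∃ i, Phi (n := n) Y i = d
    · obtain ⟨i, rfl⟩ := hd
      rw [hin, hin, tau_tau]
    · rw [hout d hd, hout _ (hnegout d hd), neg_neg]
  · intro d
    by_cases hd : ∃ i, Phi (n := n) Y i = d
    · obtain ⟨⟨r, j, s⟩, rfl⟩ := hd
      rw [← Phi_neg, hin, hin]
      have hs := Phi_sum (n := n) Y r j s
      unfold tau
      by_cases h : s = ε r
      · have h' : ¬ ((!s) = ε r) := by rw [← h]; simp
        simp only [h, h', if_true, if_false, Bool.not_not]
        simp only [← h]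
        simp only [Bool.not_not, Phi_neg]
        rw [if_neg (by cases s <;> simp)]
        linear_combination hs
      · have h' : (!s) = ε r := by cases s <;> cases hh : ε r <;> simp_all
        simp only [h, h', if_true, if_false, Bool.not_not]
        simp only [← h', Bool.not_not, Phi_neg]
        linear_combination hs
    · rw [hout d hd, hout _ (hnegout d hd)]
      have := compl_Phi hY h6 d hd
      linear_combination this
  · intro d hd0
    by_cases hd : ∃ i, Phi (n := n) Y i = d
    · obtain ⟨⟨r, j, s⟩, rfl⟩ := hd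
      rw [hin]
      intro h
      have h1 := hinj h
      unfold tau at h1
      split_ifs at h1 <;> simp at h1
    · rw [hout d hd]
      intro h
      apply hd0
      have h3 := compl_Phi hY h6 d hd
      linear_combination h3 + h

theorem fn_injective {Y : ℕ → ℕ} (hY : Heffter n Y) (h6 : n % 6 = 1 ∨ n % 6 = 3) :
    Function.Injective (fn (n := n) Y) := by
  have hodd : n % 2 = 1 := by omega
  have hinj := Phi_injective hY hodd
  intro ε ε' h
  funext r
  have h1 := congrFun h (Phi Y (r, 0, true))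
  unfold fn at h1
  rw [hinj.extend_apply, hinj.extend_apply] at h1
  have h2 := hinj h1
  unfold tau at h2
  cases h3 : ε r <;> cases h4 : ε' r <;> simp [h3, h4] at h2 ⊢

end Pool.Agent.N327.Cyc
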