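import Pool.Agent.N327.Cyc.Seq

set_option autoImplicit false

namespace Pool.Agent.N327.Cyc

open Finset

/-- A cyclic Steiner triple system on `ZMod n` given by its function `d ↦ f d`, where
`{x, x + d, x + f d}` is the block of `x` and `x + d`. -/
structure Valid {n : ℕ} (f : ZMod n → ZMod n) : Prop where
  zero : f 0 = 0
  inv : ∀ d, f (f d) = d
  neg : ∀ d, f (-d) = f d - d
  ne : ∀ d, d ≠ 0 → f d ≠ d

variable {n : ℕ} [NeZero n]

/-- The blocks. -/
def blocks (f : ZMod n → ZMod n) : Finset (Finset (ZMod n)) :=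
  univ.filter fun b => ∃ x d, d ≠ 0 ∧ b = {x, x + d, x + f d}

theorem mem_blocks {f : ZMod n → ZMod n} {b : Finset (ZMod n)} :
    b ∈ blocks f ↔ ∃ x d, d ≠ 0 ∧ b = {x, x + d, x + f d} := by
  simp [blocks]

theorem Valid.ne_zero {f : ZMod n → ZMod n} (hf : Valid f) {d : ZMod n} (hd : d ≠ 0) : f d ≠ 0 := by
  intro h
  apply hd
  rw [← hf.inv d, h, hf.zero]

theorem Valid.card {f : ZMod n → ZMod n} (hf : Valid f) (x d : ZMod n) (hd : d ≠ 0) :
    ({x, x + d, x + f d} : Finset (ZMod n)).card = 3 := by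
  have h1 := hf.ne_zero hd
  have h2 := hf.ne d hd
  rw [card_eq_three]
  exact ⟨x, x + d, x + f d, by simpa using hd, by simpa using h1,
    by simpa using h2.symm, rfl⟩

theorem Valid.unique {f : ZMod n → ZMod n} (hf : Valid f) (x y u e : ZMod n) (hxy : x ≠ y)
    (hx : x ∈ ({u, u + e, u + f e} : Finset (ZMod n)))
    (hy : y ∈ ({u, u + e, u + f e} : Finset (ZMod n))) :
    ({u, u + e, u + f e} : Finset (ZMod n)) = {x, y, x + f (y - x)} := by
  have h1 : f (f e) = e := hf.inv e
  have h2 : f (-e) = f e - e := hf.neg e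
  have h3 : f (- f e) = e - f e := by rw [hf.neg, hf.inv]
  have h4 : f (f e - e) = -e := by rw [← h2, hf.inv]
  have h5 : f (e - f e) = - f e := by rw [← h3, hf.inv]
  simp only [mem_insert, mem_singleton] at hx hy
  rcases hx with hx | hx | hx <;> rcases hy with hy | hy | hy <;> rw [hx, hy] at hxy ⊢
  · exact absurd rfl hxy
  · simp
  · simp only [add_sub_cancel_left, h1]
    ext z; simp only [mem_insert, mem_singleton]; tauto
  · have : u - (u + e) = -e := by ring
    rw [this, h2]
    have : u + e + (f e - e) = u + f e := by ring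
    rw [this]
    ext z; simp only [mem_insert, mem_singleton]; tauto
  · exact absurd rfl hxy
  · have : u + f e - (u + e) = f e - e := by ring
    rw [this, h4]
    have : u + e + -e = u := by ring
    rw [this]
    ext z; simp only [mem_insert, mem_singleton]; tauto
  · have : u - (u + f e) = - f e := by ring
    rw [this, h3]
    have : u + f e + (e - f e) = u + e := by ring
    rw [this]
    ext z; simp only [mem_insert, mem_singleton]; tauto
  · have : u + e - (u + f e) = e - f e := by ring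
    rw [this, h5]
    have : u + f e + - f e = u := by ring
    rw [this]
    ext z; simp only [mem_insert, mem_singleton]; tauto
  · exact absurd rfl hxy

theorem Valid.sts {f : ZMod n → ZMod n} (hf : Valid f) :
    (∀ b ∈ blocks f, b.card = 3) ∧
      (∀ x y : ZMod n, x ≠ y → ∃! b : Finset (ZMod n), b ∈ blocks f ∧ x ∈ b ∧ y ∈ b) ∧
      (∀ b ∈ blocks f, b.image (fun x => x + 1) ∈ blocks f) := by
  refine ⟨?_, ?_, ?_⟩
  · intro b hb
    obtain ⟨x, d, hd, rfl⟩ := mem_blocks.1 hb
    exact hf.card x d hd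
  · intro x y hxy
    refine ⟨{x, y, x + f (y - x)}, ⟨mem_blocks.2 ⟨x, y - x, sub_ne_zero.2 hxy.symm, by simp⟩,
      by simp, by simp⟩, ?_⟩
    rintro b ⟨hb, hx, hy⟩
    obtain ⟨u, e, he, rfl⟩ := mem_blocks.1 hb
    exact hf.unique x y u e hxy hx hy
  · intro b hb
    obtain ⟨x, d, hd, rfl⟩ := mem_blocks.1 hb
    refine mem_blocks.2 ⟨x + 1, d, hd, ?_⟩
    simp only [image_insert, image_singleton]
    have h1 : x + d + 1 = x + 1 + d := by ring
    have h2 : x + f d + 1 = x + 1 + f d := by ring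
    rw [h1, h2]

theorem blocks_injective {f g : ZMod n → ZMod n} (hf : Valid f) (hg : Valid g)
    (h : blocks f = blocks g) : f = g := by
  funext d
  by_cases hd : d = 0
  · rw [hd, hf.zero, hg.zero]
  have h1 : ({0, 0 + d, 0 + f d} : Finset (ZMod n)) ∈ blocks g := by
    rw [← h]; exact mem_blocks.2 ⟨0, d, hd, rfl⟩
  obtain ⟨u, e, he, hb⟩ := mem_blocks.1 h1
  have h2 := hg.unique 0 d u e (Ne.symm hd) (by rw [← hb]; simp) (by rw [← hb]; simp)
  have h3 : f d ∈ ({0, d, 0 + g (d - 0)} : Finset (ZMod n)) := by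
    rw [← h2, ← hb]; simp
  simp only [mem_insert, mem_singleton, zero_add, sub_zero] at h3
  rcases h3 with h3 | h3 | h3
  · exact absurd h3 (hf.ne_zero hd)
  · exact absurd h3 (hf.ne d hd)
  · exact h3

/-! ### The systems from difference triples -/

/-- the integer values of the three differences of a triple -/
def cval (Y : ℕ → ℕ) (r : ℕ) (j : Fin 3) : ℤ :=
  if j = 0 then (r : ℤ) else if j = 1 then (Y r : ℤ) else -((Y r : ℤ) + r)

theorem cval_sum (Y : ℕ → ℕ) (r : ℕ) (j : Fin 3) :
    cval Y r j + cval Y r (j + 1) + cval Y r (j + 2) = 0 := by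
  fin_cases j <;> simp [cval] <;> ring

/-- signed differences; the index is `(r, j, s)` -/
def sval (Y : ℕ → ℕ) (i : Fin (n / 6) × Fin 3 × Bool) : ℤ :=
  if i.2.2 then cval Y (i.1 + 1) i.2.1 else - cval Y (i.1 + 1) i.2.1

def Phi (Y : ℕ → ℕ) (i : Fin (n / 6) × Fin 3 × Bool) : ZMod n := ((sval Y i : ℤ) : ZMod n)

theorem cval_bound {Y : ℕ → ℕ} (hY : Heffter n Y) (r : ℕ) (h1 : 1 ≤ r) (h2 : r ≤ n / 6)
    (j : Fin 3) : cval Y r j ≠ 0 ∧ |cval Y r j| < n := by
  have a1 := hY.lo r h1 h2
  have a2 := hY.hi r h1 h2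
  have a3 := hY.hz r h1 h2
  rw [abs_lt]
  fin_cases j <;> simp [cval] <;> omega

/-- the main injectivity -/
theorem cval_inj {Y : ℕ → ℕ} (hY : Heffter n Y) (r r' : ℕ) (h1 : 1 ≤ r) (h2 : r ≤ n / 6)
    (h1' : 1 ≤ r') (h2' : r' ≤ n / 6) (hodd : n % 2 = 1) (j j' : Fin 3) (z : ℤ)
    (hz : cval Y r j = cval Y r' j' + n * z) : r = r' ∧ j = j' := by
  have a1 := hY.lo r h1 h2
  have a2 := hY.hi r h1 h2
  have a3 := hY.hz r h1 h2
  have b1 := hY.lo r' h1' h2'
  have b2 := hY.hi r' h1' h2'
  have b3 := hY.hz r' h1' h2'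
  have f1 := hY.f1 r r' h1 h2 h1' h2'
  have f2 := hY.f2 r r' h1 h2 h1' h2'
  have f2' := hY.f2' r r' h1 h2 h1' h2'
  have f3 := hY.f3 r r' h1 h2 h1' h2'
  have f3' := hY.f3' r r' h1 h2 h1' h2'
  have e3 := hY.f3 r' r h1' h2' h1 h2
  have e3' := hY.f3' r' r h1' h2' h1 h2
  have hz' : z = 0 ∨ z = 1 ∨ z = -1 := by
    have hb := (cval_bound hY r h1 h2 j).2
    have hb' := (cval_bound hY r' h1' h2' j').2
    rw [abs_lt] at hb hb'
    have hn : (0 : ℤ) < n := by omega
    have h5 : (n : ℤ) * z < n * 2 := by linarith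
    have h6 : (n : ℤ) * (-2) < n * z := by linarith
    have h7 := lt_of_mul_lt_mul_left h5 hn.le
    have h8 := lt_of_mul_lt_mul_left h6 hn.le
    omega
  fin_cases j <;> fin_cases j' <;> rcases hz' with rfl | rfl | rfl <;>
    simp [cval] at hz ⊢ <;> omega

theorem cval_inj' {Y : ℕ → ℕ} (hY : Heffter n Y) (r r' : ℕ) (h1 : 1 ≤ r) (h2 : r ≤ n / 6)
    (h1' : 1 ≤ r') (h2' : r' ≤ n / 6) (hodd : n % 2 = 1) (j j' : Fin 3) (z : ℤ)
    (hz : cval Y r j = - cval Y r' j' + n * z) : False := by
  have a1 := hY.lo r h1 h2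
  have a2 := hY.hi r h1 h2
  have a3 := hY.hz r h1 h2
  have b1 := hY.lo r' h1' h2'
  have b2 := hY.hi r' h1' h2'
  have b3 := hY.hz r' h1' h2'
  have f1 := hY.f1 r r' h1 h2 h1' h2'
  have f2 := hY.f2 r r' h1 h2 h1' h2'
  have f2' := hY.f2' r r' h1 h2 h1' h2'
  have f3 := hY.f3 r r' h1 h2 h1' h2'
  have f3' := hY.f3' r r' h1 h2 h1' h2'
  have e3 := hY.f3 r' r h1' h2' h1 h2
  have e3' := hY.f3' r' r h1' h2' h1 h2
  have hz' : z = 0 ∨ z = 1 ∨ z = -1 := by
    have hb := (cval_bound hY r h1 h2 j).2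
    have hb' := (cval_bound hY r' h1' h2' j').2
    rw [abs_lt] at hb hb'
    have hn : (0 : ℤ) < n := by omega
    have h5 : (n : ℤ) * z < n * 2 := by linarith
    have h6 : (n : ℤ) * (-2) < n * z := by linarith
    have h7 := lt_of_mul_lt_mul_left h5 hn.le
    have h8 := lt_of_mul_lt_mul_left h6 hn.le
    omega
  fin_cases j <;> fin_cases j' <;> rcases hz' with rfl | rfl | rfl <;>
    simp [cval] at hz <;> omega

theorem Phi_injective {Y : ℕ → ℕ} (hY : Heffter n Y) (hodd : n % 2 = 1) :
    Function.Injective (Phi (n := n) Y) := by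
  rintro ⟨r, j, s⟩ ⟨r', j', s'⟩ h
  unfold Phi at h
  rw [ZMod.intCast_eq_intCast_iff_dvd_sub] at h
  obtain ⟨z, hz⟩ := h
  have h1 : 1 ≤ (r : ℕ) + 1 := by omega
  have h2 : (r : ℕ) + 1 ≤ n / 6 := r.2
  have h1' : 1 ≤ (r' : ℕ) + 1 := by omega
  have h2' : (r' : ℕ) + 1 ≤ n / 6 := r'.2
  unfold sval at hz
  cases s <;> cases s' <;> simp only [Bool.false_eq_true, if_true, if_false] at hz
  · obtain ⟨h3, h4⟩ := cval_inj hY _ _ h1 h2 h1' h2' hodd j j' z (by linarith)
    have : r = r' := Fin.ext (by omega)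
    rw [this, h4]
  · exact (cval_inj' hY _ _ h1 h2 h1' h2' hodd j j' z (by linarith)).elim
  · exact (cval_inj' hY _ _ h1 h2 h1' h2' hodd j j' (-z) (by linarith)).elim
  · obtain ⟨h3, h4⟩ := cval_inj hY _ _ h1 h2 h1' h2' hodd j j' (-z) (by linarith)
    have : r = r' := Fin.ext (by omega)
    rw [this, h4]

theorem three_Phi {Y : ℕ → ℕ} (hY : Heffter n Y) (i : Fin (n / 6) × Fin 3 × Bool) :
    3 * Phi (n := n) Y i ≠ 0 := by
  obtain ⟨r, j, s⟩ := i
  intro h
  have h1 : 1 ≤ (r : ℕ) + 1 := by omega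
  have h2 : (r : ℕ) + 1 ≤ n / 6 := r.2
  have h3 : ((3 * cval Y (r + 1) j : ℤ) : ZMod n) = 0 := by
    unfold Phi sval at h
    push_cast
    cases s
    · simp only [Bool.false_eq_true, if_false, Int.cast_neg] at h
      rw [mul_neg, neg_eq_zero] at h
      exact h
    · simpa using h
  rw [ZMod.intCast_zmod_eq_zero_iff_dvd] at h3
  obtain ⟨z, hz⟩ := h3
  have a1 := hY.lo _ h1 h2
  have a2 := hY.hi _ h1 h2
  have a3 := hY.hz _ h1 h2
  have g1 := hY.g1 _ h1 h2
  have g2 := hY.g2 _ h1 h2
  have g3 := hY.g3 _ h1 h2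
  have hb := cval_bound hY _ h1 h2 j
  have hz' : z = 0 ∨ z = 1 ∨ z = -1 ∨ z = 2 ∨ z = -2 := by
    have hb1 := hb.2
    rw [abs_lt] at hb1
    have hn : (0 : ℤ) < n := by omega
    have h5 : (n : ℤ) * z < n * 3 := by linarith
    have h6 : (n : ℤ) * (-3) < n * z := by linarith
    have h7 := lt_of_mul_lt_mul_left h5 hn.le
    have h8 := lt_of_mul_lt_mul_left h6 hn.le
    omega
  fin_cases j <;> rcases hz' with rfl | rfl | rfl | rfl | rfl <;>
    simp [cval] at hz <;> omega

theorem compl_Phi {Y : ℕ → ℕ} (hY : Heffter n Y) (h6 : n % 6 = 1 ∨ n % 6 = 3) (d : ZMod n)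
    (hd : ¬ ∃ i, Phi (n := n) Y i = d) : 3 * d = 0 := by
  have hodd : n % 2 = 1 := by omega
  have hn0 : 0 < n := by omega
  rcases h6 with h6 | h6
  · -- the map with the additional value zero is bijective
    let Psi : Option (Fin (n / 6) × Fin 3 × Bool) → ZMod n := fun o =>
      match o with
      | none => 0
      | some i => Phi Y i
    have hinj : Function.Injective Psi := by
      rintro (_ | i) (_ | i') h
      · rfl
      · exfalso; exact three_Phi hY i' (by rw [show Phi Y i' = 0 from h.symm, mul_zero])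
      · exfalso; exact three_Phi hY i (by rw [show Phi Y i = 0 from h, mul_zero])
      · rw [Phi_injective hY hodd h]
    have hcard : Fintype.card (Option (Fin (n / 6) × Fin 3 × Bool)) = Fintype.card (ZMod n) := by
      simp only [Fintype.card_option, Fintype.card_prod, Fintype.card_fin, Fintype.card_bool,
        ZMod.card]
      omega
    have hbij := (Fintype.bijective_iff_injective_and_card Psi).2 ⟨hinj, hcard⟩
    obtain ⟨o, ho⟩ := hbij.2 d
    match o, ho with
    | none, ho => rw [← ho]; simp [Psi]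
    | some i, ho => exact absurd ⟨i, ho⟩ hd
  · let c : ZMod n := ((2 * (n / 6) + 1 : ℕ) : ZMod n)
    have hc : 3 * c = 0 := by
      have : (3 : ZMod n) * c = ((3 * (2 * (n / 6) + 1) : ℕ) : ZMod n) := by
        simp only [c]; push_cast; ring
      rw [this, ZMod.natCast_eq_zero_iff]
      exact ⟨1, by omega⟩
    have hc0 : c ≠ 0 := by
      intro h
      simp only [c] at h
      rw [ZMod.natCast_eq_zero_iff] at h
      have := Nat.le_of_dvd (by omega) h
      omega
    have hc1 : -c ≠ 0 := neg_ne_zero.2 hc0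
    have hc2 : c ≠ -c := by
      intro h
      have h2 : 2 * c = 0 := by linear_combination h
      have : c = 0 := by linear_combination hc - h2
      exact hc0 this
    let Psi : Option (Option (Option (Fin (n / 6) × Fin 3 × Bool))) → ZMod n := fun o =>
      match o with
      | none => 0
      | some none => c
      | some (some none) => -c
      | some (some (some i)) => Phi Y i
    have hinj : Function.Injective Psi := by
      rintro (_ | _ | _ | i) (_ | _ | _ | i') h
      · rfl
      · exact absurd h.symm hc0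
      · exact absurd h.symm hc1
      · exfalso; exact three_Phi hY i' (by rw [show Phi Y i' = 0 from h.symm, mul_zero])
      · exact absurd h hc0
      · rfl
      · exact absurd h hc2
      · exfalso; exact three_Phi hY i' (by rw [show Phi Y i' = c from h.symm, hc])
      · exact absurd h hc1
      · exact absurd h.symm hc2
      · rfl
      · exfalso; exact three_Phi hY i' (by rw [show Phi Y i' = -c from h.symm, mul_neg, hc, neg_zero])
      · exfalso; exact three_Phi hY i (by rw [show Phi Y i = 0 from h, mul_zero])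
      · exfalso; exact three_Phi hY i (by rw [show Phi Y i = c from h, hc])
      · exfalso; exact three_Phi hY i (by rw [show Phi Y i = -c from h, mul_neg, hc, neg_zero])
      · rw [Phi_injective hY hodd h]
    have hcard : Fintype.card (Option (Option (Option (Fin (n / 6) × Fin 3 × Bool)))) =
        Fintype.card (ZMod n) := by
      simp only [Fintype.card_option, Fintype.card_prod, Fintype.card_fin, Fintype.card_bool,
        ZMod.card]
      omega
    have hbij := (Fintype.bijective_iff_injective_and_card Psi).2 ⟨hinj, hcard⟩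
    obtain ⟨o, ho⟩ := hbij.2 d
    match o, ho with
    | none, ho => rw [← ho]; simp [Psi]
    | some none, ho => rw [← ho]; exact hc
    | some (some none), ho => rw [← ho]; simp only [Psi]; rw [mul_neg, hc, neg_zero]
    | some (some (some i)), ho => exact absurd ⟨i, ho⟩ hd

end Pool.Agent.N327.Cyc
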