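import Mathlib

/-!
Difference triples for cyclic Steiner triple systems (Peltesohn's solution of Heffter's difference
problems), for all large orders.
-/

set_option autoImplicit false
set_option maxHeartbeats 4000000

namespace Pool.Agent.N327.Cyc

/-- The triples `(r, Y r, Y r + r)`, `1 ≤ r ≤ n / 6`, have differences which are, up to sign, all
distinct modulo `n`, and different from `n / 3`. -/
structure Heffter (n : ℕ) (Y : ℕ → ℕ) : Prop where
  lo : ∀ r, 1 ≤ r → r ≤ n / 6 → n / 6 < Y r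
  hi : ∀ r, 1 ≤ r → r ≤ n / 6 → 2 * Y r + 1 ≤ n
  hz : ∀ r, 1 ≤ r → r ≤ n / 6 → Y r + r + n / 6 < n
  f1 : ∀ r r', 1 ≤ r → r ≤ n / 6 → 1 ≤ r' → r' ≤ n / 6 → Y r = Y r' → r = r'
  f2 : ∀ r r', 1 ≤ r → r ≤ n / 6 → 1 ≤ r' → r' ≤ n / 6 → Y r + r = Y r' + r' → r = r'
  f2' : ∀ r r', 1 ≤ r → r ≤ n / 6 → 1 ≤ r' → r' ≤ n / 6 → Y r + r + (Y r' + r') ≠ n
  f3 : ∀ r r', 1 ≤ r → r ≤ n / 6 → 1 ≤ r' → r' ≤ n / 6 → Y r ≠ Y r' + r'
  f3' : ∀ r r', 1 ≤ r → r ≤ n / 6 → 1 ≤ r' → r' ≤ n / 6 → Y r + (Y r' + r') ≠ n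
  g1 : ∀ r, 1 ≤ r → r ≤ n / 6 → 3 * Y r ≠ n
  g2 : ∀ r, 1 ≤ r → r ≤ n / 6 → 3 * (Y r + r) ≠ n
  g3 : ∀ r, 1 ≤ r → r ≤ n / 6 → 3 * (Y r + r) ≠ 2 * n

def Y1 (s r : ℕ) : ℕ :=
  if r % 3 = 1 then 4 * s - (r - 1) / 3 + 1
  else if r % 3 = 2 then 8 * s - (r - 1) / 3
  else if r = 3 * s then 3 * s + 1 else 6 * s - 2 * ((r - 1) / 3) - 1

theorem heffter1 (s : ℕ) (hs : 2 ≤ s) : Heffter (18 * s + 1) (Y1 s) := by
  constructor
  · intro r h1 h2; unfold Y1; split_ifs <;> omega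
  · intro r h1 h2; unfold Y1; split_ifs <;> omega
  · intro r h1 h2; unfold Y1; split_ifs <;> omega
  · intro r r' h1 h2 h3 h4; unfold Y1; split_ifs <;> omega
  · intro r r' h1 h2 h3 h4; unfold Y1; split_ifs <;> omega
  · intro r r' h1 h2 h3 h4; unfold Y1; split_ifs <;> omega
  · intro r r' h1 h2 h3 h4; unfold Y1; split_ifs <;> omega
  · intro r r' h1 h2 h3 h4; unfold Y1; split_ifs <;> omega
  · intro r h1 h2; unfold Y1; split_ifs <;> omega
  · intro r h1 h2; unfold Y1; split_ifs <;> omega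
  · intro r h1 h2; unfold Y1; split_ifs <;> omega

def Y7 (s r : ℕ) : ℕ :=
  if r % 3 = 1 then (if r = 3 * s + 1 then 4 * s + 2 else 8 * s - (r - 1) / 3 + 3)
  else if r % 3 = 2 then 6 * s - 2 * ((r - 1) / 3) + 1
  else 4 * s - (r - 1) / 3 + 1

theorem heffter7 (s : ℕ) (hs : 1 ≤ s) : Heffter (18 * s + 7) (Y7 s) := by
  constructor
  · intro r h1 h2; unfold Y7; split_ifs <;> omega
  · intro r h1 h2; unfold Y7; split_ifs <;> omega
  · intro r h1 h2; unfold Y7; split_ifs <;> omega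
  · intro r r' h1 h2 h3 h4; unfold Y7; split_ifs <;> omega
  · intro r r' h1 h2 h3 h4; unfold Y7; split_ifs <;> omega
  · intro r r' h1 h2 h3 h4; unfold Y7; split_ifs <;> omega
  · intro r r' h1 h2 h3 h4; unfold Y7; split_ifs <;> omega
  · intro r r' h1 h2 h3 h4; unfold Y7; split_ifs <;> omega
  · intro r h1 h2; unfold Y7; split_ifs <;> omega
  · intro r h1 h2; unfold Y7; split_ifs <;> omega
  · intro r h1 h2; unfold Y7; split_ifs <;> omega

def Y13 (s r : ℕ) : ℕ :=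
  if r % 3 = 1 then 4 * s - (r - 1) / 3 + 3
  else if r % 3 = 2 then (if r = 3 * s + 2 then 7 * s + 5 else 6 * s - 2 * ((r - 1) / 3) + 3)
  else 8 * s - (r - 1) / 3 + 5

theorem heffter13 (s : ℕ) (hs : 1 ≤ s) : Heffter (18 * s + 13) (Y13 s) := by
  constructor
  · intro r h1 h2; unfold Y13; split_ifs <;> omega
  · intro r h1 h2; unfold Y13; split_ifs <;> omega
  · intro r h1 h2; unfold Y13; split_ifs <;> omega
  · intro r r' h1 h2 h3 h4; unfold Y13; split_ifs <;> omega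
  · intro r r' h1 h2 h3 h4; unfold Y13; split_ifs <;> omega
  · intro r r' h1 h2 h3 h4; unfold Y13; split_ifs <;> omega
  · intro r r' h1 h2 h3 h4; unfold Y13; split_ifs <;> omega
  · intro r r' h1 h2 h3 h4; unfold Y13; split_ifs <;> omega
  · intro r h1 h2; unfold Y13; split_ifs <;> omega
  · intro r h1 h2; unfold Y13; split_ifs <;> omega
  · intro r h1 h2; unfold Y13; split_ifs <;> omega

def Y3 (s r : ℕ) : ℕ :=
  if r % 3 = 1 then 8 * s - (r - 1) / 3 + 1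
  else if r % 3 = 2 then 4 * s - (r - 1) / 3
  else 6 * s - 2 * ((r - 1) / 3) - 1

theorem heffter3 (s : ℕ) (hs : 1 ≤ s) : Heffter (18 * s + 3) (Y3 s) := by
  constructor
  · intro r h1 h2; unfold Y3; split_ifs <;> omega
  · intro r h1 h2; unfold Y3; split_ifs <;> omega
  · intro r h1 h2; unfold Y3; split_ifs <;> omega
  · intro r r' h1 h2 h3 h4; unfold Y3; split_ifs <;> omega
  · intro r r' h1 h2 h3 h4; unfold Y3; split_ifs <;> omega
  · intro r r' h1 h2 h3 h4; unfold Y3; split_ifs <;> omega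
  · intro r r' h1 h2 h3 h4; unfold Y3; split_ifs <;> omega
  · intro r r' h1 h2 h3 h4; unfold Y3; split_ifs <;> omega
  · intro r h1 h2; unfold Y3; split_ifs <;> omega
  · intro r h1 h2; unfold Y3; split_ifs <;> omega
  · intro r h1 h2; unfold Y3; split_ifs <;> omega

def Y9 (s r : ℕ) : ℕ :=
  if r % 3 = 1 then 4 * s - (r - 1) / 3 + 3
  else if r % 3 = 2 then
    (if r = 2 then 8 * s + 3 else if r = 5 then 8 * s + 2 else if r = 3 * s - 1 then 3 * s + 2
      else 8 * s - (r - 1) / 3 + 2)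
  else (if r = 3 then 8 * s + 1 else if r = 3 * s then 7 * s + 3 else 6 * s - 2 * ((r - 1) / 3) + 1)

theorem heffter9 (s : ℕ) (hs : 4 ≤ s) : Heffter (18 * s + 9) (Y9 s) := by
  constructor
  · intro r h1 h2; unfold Y9; split_ifs <;> omega
  · intro r h1 h2; unfold Y9; split_ifs <;> omega
  · intro r h1 h2; unfold Y9; split_ifs <;> omega
  · intro r r' h1 h2 h3 h4; unfold Y9; split_ifs <;> omega
  · intro r r' h1 h2 h3 h4; unfold Y9; split_ifs <;> omega
  · intro r r' h1 h2 h3 h4; unfold Y9; split_ifs <;> omega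
  · intro r r' h1 h2 h3 h4; unfold Y9; split_ifs <;> omega
  · intro r r' h1 h2 h3 h4; unfold Y9; split_ifs <;> omega
  · intro r h1 h2; unfold Y9; split_ifs <;> omega
  · intro r h1 h2; unfold Y9; split_ifs <;> omega
  · intro r h1 h2; unfold Y9; split_ifs <;> omega

def Y15 (s r : ℕ) : ℕ :=
  if r % 3 = 1 then 4 * s - (r - 1) / 3 + 3
  else if r % 3 = 2 then 8 * s - (r - 1) / 3 + 6
  else 6 * s - 2 * ((r - 1) / 3) + 3

theorem heffter15 (s : ℕ) (hs : 1 ≤ s) : Heffter (18 * s + 15) (Y15 s) := by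
  constructor
  · intro r h1 h2; unfold Y15; split_ifs <;> omega
  · intro r h1 h2; unfold Y15; split_ifs <;> omega
  · intro r h1 h2; unfold Y15; split_ifs <;> omega
  · intro r r' h1 h2 h3 h4; unfold Y15; split_ifs <;> omega
  · intro r r' h1 h2 h3 h4; unfold Y15; split_ifs <;> omega
  · intro r r' h1 h2 h3 h4; unfold Y15; split_ifs <;> omega
  · intro r r' h1 h2 h3 h4; unfold Y15; split_ifs <;> omega
  · intro r r' h1 h2 h3 h4; unfold Y15; split_ifs <;> omega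
  · intro r h1 h2; unfold Y15; split_ifs <;> omega
  · intro r h1 h2; unfold Y15; split_ifs <;> omega
  · intro r h1 h2; unfold Y15; split_ifs <;> omega

/-- Difference triples exist for all admissible orders at least `72`. -/
theorem exists_heffter (n : ℕ) (hn : 72 ≤ n) (h : n % 6 = 1 ∨ n % 6 = 3) :
    ∃ Y : ℕ → ℕ, Heffter n Y := by
  have h0 : n = 18 * (n / 18) + n % 18 := by omega
  have h1 : n % 18 = 1 ∨ n % 18 = 7 ∨ n % 18 = 13 ∨ n % 18 = 3 ∨ n % 18 = 9 ∨ n % 18 = 15 := by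
    omega
  have h2 : 4 ≤ n / 18 := by omega
  rcases h1 with h1 | h1 | h1 | h1 | h1 | h1 <;> rw [h1] at h0 <;> rw [h0]
  · exact ⟨_, heffter1 _ (by omega)⟩
  · exact ⟨_, heffter7 _ (by omega)⟩
  · exact ⟨_, heffter13 _ (by omega)⟩
  · exact ⟨_, heffter3 _ (by omega)⟩
  · exact ⟨_, heffter9 _ (by omega)⟩
  · exact ⟨_, heffter15 _ (by omega)⟩

end Pool.Agent.N327.Cyc
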